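import Pool.Agent.Lib.MP_a78e1f_lc.K.Iface
import Pool.Agent.Lib.MP_6d445e_gt.H63.Meas
import Pool.Agent.Lib.MP_6d445e_gt.H38.Seq

/-!
# Module SEQF: the sequence lemma for slaloms as functions (helper84)
-/

set_option autoImplicit false

universe u v w

open Cardinal Filter MeasureTheory

namespace Pool.Agent.Lib.MP_a78e1f_lc.H84

open Pool.Agent.Lib.MP_a78e1f_lc
open Pool.Agent.Lib.MP_100a6c_lc
open Pool.Agent.Lib.MP_e6fef2_lc
open Pool.Agent.Lib.MP_6d445e_gt
open Pool.Agent.Lib.MP_6d445e_gt.H63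
open Pool.Agent.Lib.MP_6d445e_gt.H38.SeqAux

/-- the code of a finite set -/
def cS (s : Finset ℕ) : ℕ := Finset.equivBitIndices.symm s

theorem dS_cS (s : Finset ℕ) : dS (cS s) = s := Finset.equivBitIndices.apply_symm_apply s

theorem dS_zero : dS 0 = ∅ := by
  unfold dS
  simp

/-- the code of the union of the sets with codes `f 0, ..., f n` -/
def uc (f : ℕ → ℕ) : ℕ → ℕ
  | 0 => f 0
  | n + 1 => cS (dS (uc f n) ∪ dS (f (n + 1)))

theorem subset_uc (f : ℕ → ℕ) {k n : ℕ} (h : k ≤ n) : dS (f k) ⊆ dS (uc f n) := by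
  induction n with
  | zero =>
    obtain rfl : k = 0 := by omega
    exact Finset.Subset.refl _
  | succ n ih =>
    rw [uc, dS_cS]
    rcases Nat.lt_or_ge n k with h1 | h1
    · obtain rfl : k = n + 1 := by omega
      exact Finset.subset_union_right
    · exact (ih h1).trans Finset.subset_union_left

theorem card_uc (f : ℕ → ℕ) {W : ℕ} (hf : ∀ k, (dS (f k)).card ≤ W) (n : ℕ) :
    (dS (uc f n)).card ≤ (n + 1) * W := by
  induction n with
  | zero =>
    rw [uc]
    simpa using hf 0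
  | succ n ih =>
    rw [uc, dS_cS]
    refine (Finset.card_union_le _ _).trans ?_
    have h1 := hf (n + 1)
    calc (dS (uc f n)).card + (dS (f (n + 1))).card ≤ (n + 1) * W + W := add_le_add ih h1
      _ = (n + 1 + 1) * W := by ring

theorem meas_uc {Ω : Type*} [MeasurableSpace Ω] {f : Ω → ℕ → ℕ}
    (hf : ∀ k, Measurable fun ω => f ω k) (n : ℕ) : Measurable fun ω => uc (f ω) n := by
  induction n with
  | zero => exact hf 0
  | succ n ih => exact meas_two (fun a b => cS (dS a ∪ dS b)) ih (hf (n + 1))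

section

variable {A T : Type u} [CompleteBooleanAlgebra A]

/-- mixture of the names `b k t` -/
def zz (w : ℕ → T → A) (b : ℕ → T → ℕ → ℕ → A) (k p m : ℕ) : A := ⨆ t, w k t ⊓ b k t p m

theorem exists_ss (w : ℕ → T → A) (b : ℕ → T → ℕ → ℕ → A) :
    ∃ X : ℕ → ℕ → A, IsFN X ∧
      ∀ᶠ g in ae A, fv X g = fun p => uc (fun k => fv (zz w b k) g p) p :=
  exists_fn fun p => meas_uc (fun k => meas_fv (zz w b k) p) p

theorem zz_bad {w : ℕ → T → A} {b : ℕ → T → ℕ → ℕ → A} {j : ℕ} (hb : ∀ k t, IsFN (b k t))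
    (hs : ∀ k t, SlF j (w k t) (b k t)) (k p m : ℕ) (hm : (p + 2) ^ j < (dS m).card) :
    zz w b k p m = ⊥ := by
  refine le_bot_iff.1 (iSup_le fun t => ?_)
  refine le_of_ae ?_
  filter_upwards [hb k t, hs k t] with g h1 h2 h3
  rw [g.mem_inf] at h3
  have h4 := h2 h3.1 p
  rw [fv_eq h1 h3.2] at h4
  omega

theorem zz_card {w : ℕ → T → A} {b : ℕ → T → ℕ → ℕ → A} {j : ℕ} (hb : ∀ k t, IsFN (b k t))
    (hs : ∀ k t, SlF j (w k t) (b k t)) (g : Ult A) (k p : ℕ) :
    (dS (fv (zz w b k) g p)).card ≤ (p + 2) ^ j := by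
  by_cases h : ∃ m, zz w b k p m ∈ g
  · have h1 := fv_mem h
    by_contra hcon
    push Not at hcon
    rw [zz_bad hb hs k p _ hcon] at h1
    exact g.not_bot h1
  · have h1 : fv (zz w b k) g p = 0 := by
      unfold fv
      have h2 : {m | zz w b k p m ∈ g} = ∅ := by
        ext m
        simp only [Set.mem_ofPred_eq, Set.mem_empty_iff_false, iff_false]
        exact fun h3 => h ⟨m, h3⟩
      rw [h2, Nat.sInf_empty]
    rw [h1, dS_zero]
    simp

end

theorem isCE_id (A : Type u) [CompleteBooleanAlgebra A] : IsCE fun a : A => a :=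
  ⟨fun _ _ h => h, fun _ => rfl, fun _ => sSup_eq_iSup⟩

/-- Module SEQF. -/
theorem seqf (hItpf : ItpfStatement.{u}) : SeqfStatement.{u} := by
  intro A T _
  classical
  choose dr hdr1 hdr2 hdr3 using H21.disj.{u} A T
  -- the names
  let SS : (ℕ → T → A) → (ℕ → T → ℕ → ℕ → A) → ℕ → ℕ → A := fun w b =>
    (exists_ss (fun k => dr (w k)) b).choose
  have hcl1 : ∀ᶠ N in club, ∀ (w : ℕ → T → A) (b : ℕ → T → ℕ → ℕ → A), In N w → In N b →
      In N (SS w b) := all_club.2.2.2.2.2.2.1 _ _ _ SS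
  have hcl2 : ∀ᶠ N in club, ∀ k : ℕ, ∀ (w : ℕ → T → A), In N w → In N (dr (w k)) :=
    all_club.2.2.1 _ fun k => all_club.2.2.2.2.2.1 _ _ fun w : ℕ → T → A => dr (w k)
  filter_upwards [hcl1, hcl2, H21.ng.{u} A T, club_countable T, all_club.{u}.2.1] with
    N hN1 hN2 hN3 hNc hNct w b Z j hw hb _ hZ hbF hagr hsl S hS
  obtain ⟨it1, -, -, -, -, -, -, -, -, it10, -, it12⟩ := hItpf A A (fun a => a) (isCE_id A)
  have hsl' : ∀ k t, SlF j (dr (w k) t) (b k t) := by
    intro k t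
    filter_upwards [hsl k t] with g h1 h2
    exact h1 (g.mono (hdr1 (w k) t) h2)
  obtain ⟨hX1, hX2⟩ := (exists_ss (fun k => dr (w k)) b).choose_spec
  have hX1' : IsFN (SS w b) := hX1
  have hX2' : ∀ᶠ g in ae A, fv (SS w b) g =
      fun p => uc (fun k => fv (zz (fun k => dr (w k)) b k) g p) p := hX2
  have hXs : ∃ j, SlF j ⊤ (SS w b) := by
    refine ⟨j + 1, ?_⟩
    filter_upwards [hX2'] with g hg _ p
    rw [hg]
    refine (card_uc _ (fun k => zz_card hbF hsl' g k p) p).trans ?_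
    rw [pow_succ, mul_comm]
    exact Nat.mul_le_mul_left _ (by omega)
  have a1 := it12 N hNct S
  have a2 : ∀ᶠ g in ae A, ∀ n, capF n S (SS w b) ∈ g ↔ _ :=
    ae_all fun n => it10 n S (SS w b) hS hX1'
  have a3 : ∀ᶠ g in ae A, ∀ k p m, zz (fun k => dr (w k)) b k p m ∈ g ↔
      ∃ t, dr (w k) t ⊓ b k t p m ∈ g :=
    ae_all fun k => ae_all fun p => ae_all fun m => ae_iSup _
  have a4 := it10 0 S Z hS hZ
  have a5 : ∀ᶠ g in ae A, ∀ t, In N t → ∀ k, capF 0 S (b k t) ∈ g ↔ ∀ p, 0 ≤ p →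
      dS (fv (b k t) g p) ⊆ dS (fv S g p) :=
    ae_all_in hNc fun t _ => ae_all fun k => it10 0 S (b k t) hS (hbF k t)
  have a6 : ∀ᶠ g in ae A, ∀ t, In N t → ∀ k, ∀ n, ∃! i, b k t n i ∈ g :=
    ae_all_in hNc fun t _ => ae_all fun k => hbF k t
  have a7 : ∀ᶠ g in ae A, ∀ t, In N t → ∀ k, agrF (fun a : A => a) Z (b k t) k ∈ g ↔
      ∀ p < k, fv (fun n m => Z n m) g p = fv (b k t) g p :=
    ae_all_in hNc fun t _ => ae_all fun k => it1 Z (b k t) k hZ (hbF k t)
  filter_upwards [a1, a2, a3, a4, a5, a6, a7, hN3, hX2'] with g a1 a2 a3 a4 a5 a6 a7 a8 a9 hgc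
    hcap hsup m
  obtain ⟨hgen, hgc'⟩ := a1.1 hgc
  obtain ⟨n, hn⟩ := hgc' (SS w b) (hN1 w b hw hb) hX1' hXs
  rw [a2] at hn
  rw [a4] at hcap
  have hk1 : m ≤ max n m := le_max_right _ _
  have hk2 : n ≤ max n m := le_max_left _ _
  generalize max n m = k at hk1 hk2
  have hsup' : (⨆ t, dr (w k) t) ∈ g := by
    rw [hdr3]
    exact hsup _
  obtain ⟨t, htN, ht⟩ := a8 hgen _ (hN2 k w hw) hsup'
  refine ⟨k, hk1, t, htN, g.mono (hdr1 _ t) ht, ?_⟩
  rw [a5 t htN k]
  intro p _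
  rcases Nat.lt_or_ge p k with hp | hp
  · have h1 : agrF (fun a : A => a) Z (b k t) k ∈ g := g.mono ((hdr1 _ t).trans (hagr k t)) ht
    rw [a7 t htN k] at h1
    rw [← h1 p hp]
    exact hcap p (Nat.zero_le _)
  · have h1 : zz (fun k => dr (w k)) b k p (fv (b k t) g p) ∈ g := by
      rw [a3]
      exact ⟨t, g.inf _ _ ht (fv_mem (a6 t htN k p).exists)⟩
    have h2 : fv (zz (fun k => dr (w k)) b k) g p = fv (b k t) g p := by
      have h3 := fv_mem ⟨_, h1⟩
      rw [a3] at h3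
      obtain ⟨t', ht'⟩ := h3
      rw [g.mem_inf] at ht'
      have h4 : t' = t := by
        by_contra hne
        have h5 := g.inf _ _ ht'.1 ht
        rw [hdr2 (w k) t' t hne] at h5
        exact g.not_bot h5
      rw [h4] at ht'
      exact (fv_eq (a6 t htN k) ht'.2).symm
    have h3 := subset_uc (fun k => fv (zz (fun k => dr (w k)) b k) g p) hp
    have h4 := hn p (hk2.trans hp)
    rw [a9] at h4
    have h5 : dS (fv (b k t) g p) = dS (fv (zz (fun k => dr (w k)) b k) g p) := by rw [h2]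
    rw [h5]
    exact h3.trans h4

end Pool.Agent.Lib.MP_a78e1f_lc.H84
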