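import Pool.Agent.Lib.MP_a78e1f_lc.R.Iface

/-!
# Module PRXC: composition of extensions which preserve good pairs (helper84)
-/

set_option autoImplicit false

universe u v w

open Cardinal Filter MeasureTheory

namespace Pool.Agent.Lib.MP_a78e1f_lc.H84

open Pool.Agent.Lib.MP_a78e1f_lc
open Pool.Agent.Lib.MP_100a6c_lc
open Pool.Agent.Lib.MP_c5d73d_lc.F (pr)
open Pool.Agent.Lib.MP_e6fef2_lc
open Pool.Agent.Lib.MP_6d445e_gt

section

variable {A : Type u} [CompleteBooleanAlgebra A]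

theorem gcX_le_rn (N : Set El.{u}) (X Y : ℕ → A) : gcX N X Y ≤ rn N X :=
  inf_le_left.trans inf_le_left

/-- monotonicity of the evaluation at a random point -/
theorem ev_mono {N : Set El.{u}} {X : ℕ → A}
    (h : ∀ᶠ g in ae A, rn N X ∈ g → EvG N X g) {r s : RA A} (hr : In N r) (hs : In N s)
    (hrs : r ≤ s) : rn N X ⊓ ev X r ≤ ev X s := by
  refine le_of_ae ?_
  filter_upwards [h] with g hg h1
  rw [Ult.mem_inf] at h1
  exact (hg h1.1).mono r s hr hs hrs h1.2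

end

/-- Module PRXC. -/
theorem prxc (hEvx : EvxStatement.{u}) (hRfm : RfmStatement.{u}) : PrxcStatement.{u} := by
  intro A B C _ _ _ f g hf hg h1 h2
  have hLB : LbStatement.{u} := H95.lb
  have hI : ItpStatement.{u} := W.All.itp
  have hI2 : Itp2Statement.{u} := H63.itp2
  obtain ⟨hrf, -⟩ := hRfm A B f hf
  obtain ⟨hrg, -⟩ := hRfm B C g hg
  have hgf : rmap (fun a => g (f a)) = fun r => rmap g (rmap f r) :=
    (hRfm A B f hf).2.2.2.2.2.2.2.2.2.2 C g hg
  have hAf := all_alg A B f hf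
  obtain ⟨-, -, hadd, -, hitp⟩ := hI (RA B) (RA C) (rmap g) hrg
  obtain ⟨-, hpm, -, -, -, -, -, hcongr, hsl⟩ := hitp (prj (rmap g)) hadd
  choose z' hz1 hz2 using fun (c : RA C) (x : ℕ → RA C) (y : ℕ → RA B) =>
    hLB (RA B) (RA C) (rmap g) hrg (prj (rmap g)) hadd c x y
  let F : (RA C × (ℕ → RA C)) × (ℕ → RA A) → ℕ → RA B :=
    fun p n => z' p.1.1 p.1.2 (fun n => rmap f (p.2 n)) n ⊓ prj (rmap g) p.1.1
  let G1 : (RA C × (ℕ → RA C)) × (ℕ → RA A) → RA A :=
    fun p => itp (rmap f) (prj (rmap f)) (prj (rmap g) p.1.1) (F p) p.2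
  let G2 : (RA C × (ℕ → RA C)) × (ℕ → RA A) → RA A :=
    fun p => itp (rmap fun a => g (f a)) (prj (rmap fun a => g (f a))) p.1.1 p.1.2 p.2
  let G3 : (RA C × (ℕ → RA C)) × (ℕ → RA A) → RA B :=
    fun p => itp (rmap g) (prj (rmap g)) p.1.1 p.1.2 (F p)
  filter_upwards [h1, h2, all_club.2.2.2.2.2.1 (RA C) (RA B) (prj (rmap g)),
    all_club.2.2.2.2.2.1 ((RA C × (ℕ → RA C)) × (ℕ → RA A)) (ℕ → RA B) F,
    all_club.2.2.2.2.2.2.1 (RA C) (ℕ → RA C) (RA C × (ℕ → RA C)) Prod.mk,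
    all_club.2.2.2.2.2.2.1 (RA C × (ℕ → RA C)) (ℕ → RA A)
      ((RA C × (ℕ → RA C)) × (ℕ → RA A)) Prod.mk,
    all_club.2.2.2.2.2.1 ((RA C × (ℕ → RA C)) × (ℕ → RA A)) (RA A) G1,
    all_club.2.2.2.2.2.1 ((RA C × (ℕ → RA C)) × (ℕ → RA A)) (RA A) G2,
    all_club.2.2.2.2.2.1 ((RA C × (ℕ → RA C)) × (ℕ → RA A)) (RA B) G3,
    (hEvx A).2.1, (hEvx B).2.1]
    with N hN1 hN2 hN3 hN4 hN5 hN6 hN7 hN8 hN9 hEA hEB X Y c x z hc hx hsx hz
  obtain ⟨r, hr⟩ := hsx
  have hcxz : In N (((c, x), z) : (RA C × (ℕ → RA C)) × (ℕ → RA A)) := hN6 _ _ (hN5 _ _ hc hx) hz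
  have hFN : In N (F ((c, x), z)) := hN4 _ hcxz
  have hG1N : In N (G1 ((c, x), z)) := hN7 _ hcxz
  have hG2N : In N (G2 ((c, x), z)) := hN8 _ hcxz
  have hG3N : In N (G3 ((c, x), z)) := hN9 _ hcxz
  have hpc : In N (prj (rmap g) c) := hN3 c hc
  -- the interpretation
  let x' : ℕ → RA B := z' c x fun n => rmap f (z n)
  have hx' : F ((c, x), z) = fun n => x' n ⊓ prj (rmap g) c := rfl
  have hG1' : G1 ((c, x), z) = itp (rmap f) (prj (rmap f)) (prj (rmap g) c)
    (F ((c, x), z)) z := rfl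
  have hG3' : G3 ((c, x), z) = itp (rmap g) (prj (rmap g)) c x (F ((c, x), z)) := rfl
  rw [hG1'] at hG1N
  rw [hG3'] at hG3N
  rw [hx'] at hFN hG1N hG3N
  set x'' : ℕ → RA B := fun n => x' n ⊓ prj (rmap g) c with hx''
  have e1 : ∀ n, prj (rmap g) c ⊓ x'' n = prj (rmap g) c ⊓ x' n := by
    intro n
    simp only [hx'']
    exact le_antisymm (le_inf inf_le_left (inf_le_right.trans inf_le_left))
      (le_inf inf_le_left (le_inf inf_le_right inf_le_left))
  have i1 : prj (rmap g) c ≤ itp (rmap g) (prj (rmap g)) c x x' :=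
    hz1 c x fun n => rmap f (z n)
  have i2 : prj (rmap g) c ≤ itp (rmap g) (prj (rmap g)) c x x'' := by
    have := hcongr c x x'' x' (prj (rmap g) c) e1
    rw [inf_eq_left.2 i1] at this
    exact inf_eq_left.1 this
  have a1 : ∀ k, prj (rmap g) (c ⊓ agr (fun a => rmap g (rmap f a)) z x k) ≤
      agr (rmap f) z x'' k := by
    intro k
    have j1 : prj (rmap g) (c ⊓ agr (fun a => rmap g (rmap f a)) z x k) ≤
      agr (rmap f) z x' k := hz2 c x (fun n => rmap f (z n)) k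
    have j2 : prj (rmap g) (c ⊓ agr (fun a => rmap g (rmap f a)) z x k) ≤
      prj (rmap g) c := hpm _ _ inf_le_left
    refine (le_inf j1 j2).trans ?_
    refine le_iInf fun n => le_iInf fun hn => ?_
    have j3 : agr (rmap f) z x' k ≤
      (rmap f (z n) ⊓ x' n) ⊔ ((rmap f (z n))ᶜ ⊓ (x' n)ᶜ) := iInf₂_le n hn
    refine (inf_le_inf_right _ j3).trans ?_
    rw [inf_sup_right]
    refine sup_le_sup ?_ ?_
    · exact (inf_assoc _ _ _).le
    · refine inf_le_left.trans (inf_le_inf_left _ ?_)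
      exact compl_le_compl inf_le_left
  have s1 : SlOn r (prj (rmap g) c) x' := by
    have j1 : SlOn r c x := by
      filter_upwards [hr] with h hh _
      exact hh h.mem_top
    have j2 := hsl c x x' r j1
    filter_upwards [j2] with h hh hc
    exact hh (h.mono i1 hc)
  have s2 : Sl x'' := by
    refine ⟨r, ?_⟩
    filter_upwards [s1] with h hh _ p
    by_cases hpc : prj (rmap g) c ∈ h
    · refine le_trans (Set.encard_le_encard ?_) (hh hpc p)
      intro i hi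
      exact (h.mem_inf.1 hi).1
    · have : {i | x'' (Nat.pair p i) ∈ h} = ∅ := by
        ext i
        simp only [Set.mem_ofPred_eq, Set.mem_empty_iff_false, iff_false]
        intro hi
        exact hpc (h.mem_inf.1 hi).2
      rw [this]
      simp
  have p1 := hN1 X Y (prj (rmap g) c) x'' z hpc hFN s2 hz
  have p2 := hN2 (fun n => f (X n)) (fun n => f (Y n)) c x x'' hc hx ⟨r, hr⟩ hFN
  have p3 : itp (rmap fun a => g (f a)) (prj (rmap fun a => g (f a))) c x z ≤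
      itp (rmap f) (prj (rmap f)) (prj (rmap g) c) x'' z := by
    rw [hgf]
    exact (hI2 (RA A) (RA B) (RA C) (rmap f) (rmap g) hrf hrg).1 c x z x'' a1
  -- evaluation
  have v1 : gcX N X Y ⊓ ev X (itp (rmap fun a => g (f a)) (prj (rmap fun a => g (f a))) c x z) ≤
      gcX N X Y ⊓ ev X (itp (rmap f) (prj (rmap f)) (prj (rmap g) c) x'' z) :=
    le_inf inf_le_left ((inf_le_inf_right _ (gcX_le_rn N X Y)).trans
      (ev_mono (hEA X) hG2N hG1N p3))
  have v2 : gcX N (fun n => f (X n)) (fun n => f (Y n)) ⊓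
      ev (fun n => f (X n)) (prj (rmap g) c) ≤
      gcX N (fun n => f (X n)) (fun n => f (Y n)) ⊓
      ev (fun n => f (X n)) (itp (rmap g) (prj (rmap g)) c x x'') :=
    le_inf inf_le_left ((inf_le_inf_right _ (gcX_le_rn N _ _)).trans
      (ev_mono (hEB _) hpc hG3N i2))
  rw [(all_alg2 A B C f g hf hg).2.1]
  refine (inf_le_inf_right _ v1).trans (p1.trans ?_)
  refine hAf.2.2.2.2.2.2.2.2.2.2.2.2.1 _ _ (le_trans ?_ p2)
  exact inf_le_inf_right _ v2

end Pool.Agent.Lib.MP_a78e1f_lc.H84
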